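import Pool.Agent.H14.AVS.S3

/-!
# AVS, module MUQ: uniqueness of the splitting type (degrees)
-/

set_option autoImplicit false

namespace Pool.Agent.H44.AVS

open Polynomial Matrix Pool.AVR Pool.AVS

theorem intDegree_X_pow' {F : Type} [Field F] (k : ℕ) :
    ((RatFunc.X : RatFunc F) ^ k).intDegree = (k : ℤ) := by
  induction k with
  | zero => simp
  | succ k ih =>
    rw [pow_succ, RatFunc.intDegree_mul (pow_ne_zero _ RatFunc.X_ne_zero) RatFunc.X_ne_zero, ih,
      RatFunc.intDegree_X]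
    push_cast
    ring

theorem intDegree_X_zpow' {F : Type} [Field F] (k : ℤ) :
    ((RatFunc.X : RatFunc F) ^ k).intDegree = k := by
  obtain ⟨n, rfl | rfl⟩ := k.eq_nat_or_neg
  · rw [zpow_natCast, intDegree_X_pow']
  · rw [_root_.zpow_neg, zpow_natCast, RatFunc.intDegree_inv, intDegree_X_pow']

theorem Dm_inv {F : Type} [Field F] (m : ℕ) :
    (Dm (F := F) m)⁻¹ = Matrix.diagonal fun i => (RatFunc.X : RatFunc F) ^ (-dd m i) := by
  apply Matrix.inv_eq_right_inv
  unfold Dm
  rw [Matrix.diagonal_mul_diagonal, ← Matrix.diagonal_one]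
  congr 1
  funext i
  rw [← zpow_add₀ RatFunc.X_ne_zero]
  simp

theorem entry {F : Type} [Field F] (m m' : ℕ) (γ : Matrix (Fin 3) (Fin 3) F[X]) (i j : Fin 3)
    (h : (Dm m * γ.map (algebraMap F[X] (RatFunc F)) * (Dm m')⁻¹ :
      Matrix (Fin 3) (Fin 3) (RatFunc F)) i j ∈ Iinf F)
    (hij : γ i j ≠ 0) : ((γ i j).natDegree : ℤ) ≤ dd m' j - dd m i := by
  have hX : (RatFunc.X : RatFunc F) ≠ 0 := RatFunc.X_ne_zero
  have h0 : algebraMap F[X] (RatFunc F) (γ i j) ≠ 0 := by
    intro h1
    exact hij ((map_eq_zero_iff _ (RatFunc.algebraMap_injective F)).1 h1)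
  rw [Dm_inv, Matrix.mul_diagonal] at h
  unfold Dm at h
  rw [Matrix.diagonal_mul, Matrix.map_apply] at h
  have h2 : (RatFunc.X ^ dd m i * algebraMap F[X] (RatFunc F) (γ i j) *
      RatFunc.X ^ (-dd m' j)).intDegree ≤ 0 := h
  rw [RatFunc.intDegree_mul (mul_ne_zero (zpow_ne_zero _ hX) h0) (zpow_ne_zero _ hX),
    RatFunc.intDegree_mul (zpow_ne_zero _ hX) h0, intDegree_X_zpow', intDegree_X_zpow',
    RatFunc.intDegree_polynomial] at h2
  omega

theorem MUQ_thm : MUQStmt := by
  intro F _ m m' γ hdet hA hM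
  have key : ∀ i j, γ i j ≠ 0 → ((γ i j).natDegree : ℤ) ≤ dd m' j - dd m i :=
    fun i j => entry m m' γ i j (hM i j)
  have hz : ∀ i j, dd m' j - dd m i < 0 → γ i j = 0 := by
    intro i j h
    by_contra hne
    have := key i j hne
    omega
  have hd : ∀ k : ℕ, dd k 0 = -(k : ℤ) ∧ dd k 1 = 0 ∧ dd k 2 = k := by
    intro k
    exact ⟨rfl, rfl, rfl⟩
  obtain ⟨a0, a1, a2⟩ := hd m
  obtain ⟨b0, b1, b2⟩ := hd m'
  have hm : m = m' := by
    rcases lt_trichotomy m m' with h | h | h
    · exfalso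
      have h00 : γ 0 0 = 0 := hz 0 0 (by rw [a0, b0]; omega)
      have h10 : γ 1 0 = 0 := hz 1 0 (by rw [a1, b0]; omega)
      have h20 : γ 2 0 = 0 := hz 2 0 (by rw [a2, b0]; omega)
      have : γ.det = 0 := by
        apply Matrix.det_eq_zero_of_column_eq_zero 0
        intro i
        fin_cases i
        · exact h00
        · exact h10
        · exact h20
      rw [this] at hdet
      exact zero_ne_one hdet
    · exact h
    · exfalso
      have h00 : γ 2 0 = 0 := hz 2 0 (by rw [a2, b0]; omega)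
      have h10 : γ 2 1 = 0 := hz 2 1 (by rw [a2, b1]; omega)
      have h20 : γ 2 2 = 0 := hz 2 2 (by rw [a2, b2]; omega)
      have : γ.det = 0 := by
        apply Matrix.det_eq_zero_of_row_eq_zero 2
        intro i
        fin_cases i
        · exact h00
        · exact h10
        · exact h20
      rw [this] at hdet
      exact zero_ne_one hdet
  refine ⟨hm, hA, hdet, ?_⟩
  intro i j hij
  have := key i j hij
  rw [← hm] at this
  exact this

end Pool.Agent.H44.AVS
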